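import Mathlib

/-!
# Finite quotients of free groups in which a given element has a given order
-/

set_option autoImplicit false
set_option linter.unusedSectionVars false

open Matrix

namespace IM

namespace EO

section act

variable {A : Type*} [DecidableEq A] {R : Type*} [CommRing R]

/-- action of a letter on functions -/
def actL (b : ℕ → A) (x : A × Bool) (v : ℕ → R) : ℕ → R :=
  fun i => v i + if b i = x.1 then (if x.2 then v (i + 1) else - v (i + 1)) else 0

/-- action of a word on functions -/
def act (b : ℕ → A) : List (A × Bool) → (ℕ → R) → (ℕ → R)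
  | [], v => v
  | x :: L, v => actL b x (act b L v)

lemma act_shift (b : ℕ → A) (L : List (A × Bool)) (v : ℕ → R) (m : ℕ) (i : ℕ) :
    act b L v (i + m) = act (fun j => b (j + m)) L (fun j => v (j + m)) i := by
  induction L generalizing i with
  | nil => rfl
  | cons x L ih =>
    simp only [act, actL]
    rw [ih, show i + m + 1 = (i + 1) + m by ring, ih]

lemma act_cast (b : ℕ → A) (L : List (A × Bool)) (v : ℕ → ℤ) (i : ℕ) :
    ((act b L v i : ℤ) : R) = act b L (fun j => (v j : R)) i := by
  induction L generalizing i with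
  | nil => rfl
  | cons x L ih =>
    simp only [act, actL]
    split_ifs <;> push_cast <;> simp only [ih]

lemma act_supp (b : ℕ → A) (L : List (A × Bool)) (v : ℕ → R) (q : ℕ) (h : ∀ i, q < i → v i = 0)
    (i : ℕ) (hi : q < i) : act b L v i = 0 := by
  induction L generalizing i with
  | nil => exact h i hi
  | cons x L ih =>
    simp only [act, actL]
    rw [ih i hi, ih (i + 1) (by omega)]
    simp

lemma act_last (b : ℕ → A) (L : List (A × Bool)) (v : ℕ → R) (q : ℕ) (h : ∀ i, q < i → v i = 0) :
    act b L v q = v q := by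
  induction L with
  | nil => rfl
  | cons x L ih =>
    simp only [act, actL]
    rw [ih, act_supp b L v q h (q + 1) (by omega)]
    simp

end act

section rep

variable {A : Type*} [DecidableEq A] {R : Type*} [CommRing R] {q : ℕ}

/-- extension by zero -/
def ext (v : Fin (q + 1) → R) : ℕ → R := fun i => if h : i < q + 1 then v ⟨i, h⟩ else 0

lemma ext_val (v : Fin (q + 1) → R) (i : Fin (q + 1)) : ext v i = v i := by
  unfold ext
  rw [dif_pos i.2]

/-- the nilpotent matrices -/
def X (R : Type*) [CommRing R] (q : ℕ) (b : ℕ → A) (a : A) :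
    Matrix (Fin (q + 1)) (Fin (q + 1)) R :=
  of fun i j => if (i : ℕ) + 1 = j ∧ b i = a then 1 else 0

lemma X_mulVec (b : ℕ → A) (a : A) (v : Fin (q + 1) → R) (i : Fin (q + 1)) :
    (X R q b a *ᵥ v) i = if b i = a then ext v (i + 1) else 0 := by
  unfold X mulVec dotProduct
  simp only [of_apply]
  by_cases ha : b i = a
  · rw [if_pos ha]
    unfold ext
    split_ifs with h
    · rw [Finset.sum_eq_single ⟨i + 1, h⟩]
      · rw [if_pos ⟨rfl, ha⟩, one_mul]
      · intro j _ hj
        rw [if_neg, zero_mul]
        rintro ⟨h1, -⟩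
        exact hj (Fin.ext h1.symm)
      · intro h'; exact absurd (Finset.mem_univ _) h'
    · refine Finset.sum_eq_zero fun j _ => ?_
      rw [if_neg, zero_mul]
      rintro ⟨h1, -⟩
      exact h (h1 ▸ j.2)
  · rw [if_neg ha]
    refine Finset.sum_eq_zero fun j _ => ?_
    rw [if_neg (fun h => ha h.2), zero_mul]

lemma X_mul_X (b : ℕ → A) (hb : ∀ i, i + 1 < q → b i ≠ b (i + 1)) (a : A) :
    X R q b a * X R q b a = 0 := by
  ext i k
  rw [Matrix.mul_apply, Matrix.zero_apply]
  refine Finset.sum_eq_zero fun j _ => ?_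
  unfold X
  rw [of_apply, of_apply]
  by_cases h1 : (i : ℕ) + 1 = j ∧ b i = a
  · by_cases h2 : (j : ℕ) + 1 = k ∧ b j = a
    · exfalso
      refine hb i (by have := k.2; omega) ?_
      rw [h1.2, h1.1, h2.2]
    · rw [if_neg h2, mul_zero]
  · rw [if_neg h1, zero_mul]

/-- the matrices of the letters -/
def u (R : Type*) [CommRing R] (b : ℕ → A) (hb : ∀ i, i + 1 < q → b i ≠ b (i + 1)) (a : A) :
    (Matrix (Fin (q + 1)) (Fin (q + 1)) R)ˣ where
  val := 1 + X R q b a
  inv := 1 - X R q b a
  val_inv := by
    have := X_mul_X (R := R) b hb a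
    rw [mul_sub, mul_one, add_mul, one_mul, this]
    abel
  inv_val := by
    have := X_mul_X (R := R) b hb a
    rw [mul_add, mul_one, sub_mul, one_mul, this]
    abel

/-- the representation -/
def rho (R : Type*) [CommRing R] (b : ℕ → A) (hb : ∀ i, i + 1 < q → b i ≠ b (i + 1)) :
    FreeGroup A →* (Matrix (Fin (q + 1)) (Fin (q + 1)) R)ˣ := FreeGroup.lift (u R b hb)

lemma rho_act (b : ℕ → A) (hb : ∀ i, i + 1 < q → b i ≠ b (i + 1)) (L : List (A × Bool))
    (v : Fin (q + 1) → R) :
    ext ((rho R b hb (FreeGroup.mk L)).val *ᵥ v) = act b L (ext v) := by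
  induction L with
  | nil =>
    have : FreeGroup.mk ([] : List (A × Bool)) = 1 := rfl
    rw [this, map_one, Units.val_one, one_mulVec]
    rfl
  | cons x L ih =>
    have h1 : FreeGroup.mk (x :: L) = FreeGroup.mk [x] * FreeGroup.mk L := rfl
    rw [h1, map_mul, Units.val_mul, ← mulVec_mulVec]
    simp only [act]
    rw [← ih]
    set w := (rho R b hb (FreeGroup.mk L)).val *ᵥ v with hw
    funext i
    have h2 : (rho R b hb (FreeGroup.mk [x])).val =
        if x.2 then 1 + X R q b x.1 else 1 - X R q b x.1 := by
      unfold rho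
      rw [FreeGroup.lift_mk]
      rcases x with ⟨a, _ | _⟩
      · simp [u]
      · simp [u]
    rw [h2]
    unfold actL
    by_cases hi : i < q + 1
    · have h3 : ∀ v : Fin (q + 1) → R, ext v i = v ⟨i, hi⟩ := fun v => dif_pos hi
      rw [h3, h3]
      cases hx : x.2 with
      | false =>
        simp only [Bool.false_eq_true, if_false]
        rw [sub_mulVec, one_mulVec, Pi.sub_apply, X_mulVec, sub_eq_add_neg]
        congr 1
        change -(if b i = x.1 then ext w (i + 1) else 0) = _
        split_ifs
        · rfl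
        · rw [neg_zero]
      | true =>
        simp only [if_true]
        rw [add_mulVec, one_mulVec, Pi.add_apply, X_mulVec]
    · have h3 : ∀ v : Fin (q + 1) → R, ext v i = 0 := fun v => dif_neg hi
      have h4 : ∀ v : Fin (q + 1) → R, ext v (i + 1) = 0 := fun v => dif_neg (by omega)
      rw [h3, h3, h4]
      simp

/-- the entries of the representation -/
lemma rho_entry (b : ℕ → A) (hb : ∀ i, i + 1 < q → b i ≠ b (i + 1)) (L : List (A × Bool))
    (i j : Fin (q + 1)) :
    (rho R b hb (FreeGroup.mk L)).val i j = act b L (fun k => if k = (j : ℕ) then 1 else 0) i := by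
  have h1 := congrFun (rho_act (R := R) b hb L (Pi.single j 1)) i
  rw [ext_val, mulVec_single_one] at h1
  have h2 : ext (Pi.single j (1 : R)) = fun k => if k = (j : ℕ) then 1 else 0 := by
    funext k
    unfold ext
    split_ifs with h h' h'
    · have : (⟨k, h⟩ : Fin (q + 1)) = j := Fin.ext h'
      rw [this, Pi.single_eq_same]
    · rw [Pi.single_eq_of_ne]
      intro h''
      exact h' (congrArg Fin.val h'')
    · exact absurd (h' ▸ j.2) h
    · rfl
  rw [h2] at h1
  exact h1

lemma u_zpow (b : ℕ → A) (hb : ∀ i, i + 1 < q → b i ≠ b (i + 1)) (a : A) (e : ℤ) :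
    ((u R b hb a) ^ e).val = 1 + e • X R q b a := by
  have hX := X_mul_X (R := R) b hb a
  induction e using Int.induction_on with
  | zero => simp
  | succ n ih =>
    rw [_root_.zpow_add_one, Units.val_mul, ih]
    change (1 + (n : ℤ) • X R q b a) * (1 + X R q b a) = _
    rw [mul_add, mul_one, add_mul, one_mul, smul_mul_assoc, hX, smul_zero, add_zero, add_smul,
      one_smul]
    abel
  | pred n ih =>
    rw [_root_.zpow_sub_one, Units.val_mul, ih]
    change (1 + (-(n : ℤ)) • X R q b a) * (1 - X R q b a) = _
    rw [mul_sub, mul_one, add_mul, one_mul, smul_mul_assoc, hX, smul_zero, add_zero, sub_smul,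
      one_smul]
    abel

/-- the product of the syllables -/
def syl (l : List (A × ℤ)) : FreeGroup A := (l.map fun p => FreeGroup.of p.1 ^ p.2).prod

lemma rho_syl (b : ℕ → A) (hb : ∀ i, i + 1 < q → b i ≠ b (i + 1)) (l : List (A × ℤ)) (m : ℕ)
    (hq : m + l.length = q) (hl : ∀ i (h : i < l.length), b (m + i) = (l[i]).1) :
    ext ((rho R b hb (syl l)).val *ᵥ Pi.single (Fin.last q) 1) m = (l.map fun p => (p.2 : R)).prod ∧
      ∀ i, i < m → ext ((rho R b hb (syl l)).val *ᵥ Pi.single (Fin.last q) 1) i = 0 := by
  induction l generalizing m with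
  | nil =>
    have h1 : syl ([] : List (A × ℤ)) = 1 := rfl
    rw [h1, map_one, Units.val_one, one_mulVec]
    rw [List.length_nil, add_zero] at hq
    subst hq
    refine ⟨?_, fun i hi => ?_⟩
    · have := ext_val (Pi.single (Fin.last m) (1 : R)) (Fin.last m)
      rw [Fin.val_last] at this
      rw [this, Pi.single_eq_same]
      rfl
    · unfold ext
      rw [dif_pos (by omega), Pi.single_eq_of_ne]
      intro h
      have := congrArg Fin.val h
      simp at this
      omega
  | cons p l ih =>
    obtain ⟨a, e⟩ := p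
    rw [List.length_cons] at hq
    obtain ⟨h1, h2⟩ := ih (m + 1) (by omega) (fun i h => by
      have := hl (i + 1) (by rw [List.length_cons]; omega)
      rw [List.getElem_cons_succ] at this
      rw [← this]
      congr 1
      ring)
    have ha : b m = a := by
      have := hl 0 (by rw [List.length_cons]; omega)
      simpa using this
    have h3 : syl ((a, e) :: l) = FreeGroup.of a ^ e * syl l := by
      unfold syl
      rw [List.map_cons, List.prod_cons]
    have h4 : (rho R b hb (FreeGroup.of a ^ e)).val = 1 + e • X R q b a := by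
      rw [map_zpow]
      unfold rho
      rw [FreeGroup.lift_apply_of, u_zpow]
    rw [h3, map_mul, Units.val_mul, ← mulVec_mulVec, h4]
    set w := (rho R b hb (syl l)).val *ᵥ Pi.single (Fin.last q) 1 with hw
    have h5 : ∀ i, i < q + 1 → ext ((1 + e • X R q b a) *ᵥ w) i =
        ext w i + (if b i = a then (e : R) * ext w (i + 1) else 0) := by
      intro i hi
      have h6 : ∀ v : Fin (q + 1) → R, ext v i = v ⟨i, hi⟩ := fun v => dif_pos hi
      rw [h6, h6, add_mulVec, one_mulVec, Pi.add_apply]
      congr 1
      rw [smul_mulVec, Pi.smul_apply, X_mulVec, zsmul_eq_mul]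
      change _ * (if b i = a then ext w (i + 1) else 0) = _
      split_ifs
      · rfl
      · rw [mul_zero]
    refine ⟨?_, fun i hi => ?_⟩
    · rw [h5 m (by omega), h2 m (by omega), if_pos ha, h1, zero_add, List.map_cons, List.prod_cons]
    · rw [h5 i (by omega), h2 i (by omega), h2 (i + 1) (by omega)]
      simp

end rep

/-- every element of a free group is a product of syllables -/
lemma exists_syl {A : Type*} [DecidableEq A] (L : List (A × Bool)) : ∃ l : List (A × ℤ),
    FreeGroup.mk L = syl l ∧ (∀ p ∈ l, p.2 ≠ 0) ∧ l.IsChain (fun p p' => p.1 ≠ p'.1) := by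
  induction L with
  | nil => exact ⟨[], rfl, by simp, List.IsChain.nil⟩
  | cons x L ih =>
    obtain ⟨l, h1, h2, h3⟩ := ih
    have h4 : FreeGroup.mk (x :: L) = FreeGroup.of x.1 ^ (if x.2 then 1 else -1 : ℤ) *
        FreeGroup.mk L := by
      have h5 : FreeGroup.mk (x :: L) = FreeGroup.mk [x] * FreeGroup.mk L := rfl
      rw [h5]
      congr 1
      rcases x with ⟨a, _ | _⟩
      · simp [FreeGroup.of, FreeGroup.inv_mk, FreeGroup.invRev]
      · simp [FreeGroup.of]
    set ε : ℤ := if x.2 then 1 else -1 with hε
    have hε0 : ε ≠ 0 := by rw [hε]; split_ifs <;> norm_num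
    rcases l with _ | ⟨⟨a', e⟩, l⟩
    · refine ⟨[(x.1, ε)], ?_, by simpa using hε0, List.isChain_singleton _⟩
      rw [h4, h1]
      simp [syl]
    · by_cases ha : x.1 = a'
      · by_cases he : ε + e = 0
        · refine ⟨l, ?_, fun p hp => h2 p (List.mem_cons_of_mem _ hp), h3.tail⟩
          rw [h4, h1, ha]
          simp only [syl, List.map_cons, List.prod_cons]
          rw [← mul_assoc, ← _root_.zpow_add, he, zpow_zero, one_mul]
        · refine ⟨(a', ε + e) :: l, ?_, ?_, ?_⟩
          · rw [h4, h1, ha]
            simp only [syl, List.map_cons, List.prod_cons]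
            rw [← mul_assoc, ← _root_.zpow_add]
          · intro p hp
            rcases List.mem_cons.mp hp with rfl | hp
            · exact he
            · exact h2 p (List.mem_cons_of_mem _ hp)
          · rw [List.isChain_cons] at h3 ⊢
            exact h3
      · refine ⟨(x.1, ε) :: (a', e) :: l, ?_, ?_, ?_⟩
        · rw [h4, h1]
          simp only [syl, List.map_cons, List.prod_cons]
        · intro p hp
          rcases List.mem_cons.mp hp with rfl | hp
          · exact hε0
          · exact h2 p hp
        · exact List.isChain_cons_cons.mpr ⟨ha, h3⟩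

/-- the order of `1 + c E` -/
lemma order_eq {q : ℕ} (hq : 0 < q) (c : ℤ) (hc : c ≠ 0) (N : ℕ)
    (x : (Matrix (Fin (q + 1)) (Fin (q + 1)) (ZMod (N * c.natAbs)))ˣ)
    (hx : x.val = 1 + (c : ZMod (N * c.natAbs)) • Matrix.single 0 (Fin.last q) 1) :
    orderOf x = N := by
  have h0 : (0 : Fin (q + 1)) ≠ Fin.last q := by
    intro h
    have := congrArg Fin.val h
    simp at this
    omega
  have hE : (Matrix.single (0 : Fin (q + 1)) (Fin.last q) (1 : ZMod (N * c.natAbs))) *
      Matrix.single 0 (Fin.last q) 1 = 0 := by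
    rw [Matrix.single_mul_single_of_ne]
    exact h0.symm
  have hpow : ∀ k : ℕ, (x ^ k).val = 1 + ((k * c : ℤ) : ZMod (N * c.natAbs)) •
      Matrix.single 0 (Fin.last q) 1 := by
    intro k
    induction k with
    | zero => simp
    | succ k ih =>
      rw [pow_succ, Units.val_mul, ih, hx, mul_add, mul_one, add_mul, one_mul, smul_mul_smul_comm,
        hE, smul_zero, add_zero]
      push_cast
      rw [add_mul, one_mul, add_smul]
      abel
  have hiff : ∀ k : ℕ, x ^ k = 1 ↔ N ∣ k := by
    intro k
    have h1 : x ^ k = 1 ↔ ((k * c : ℤ) : ZMod (N * c.natAbs)) = 0 := by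
      constructor
      · intro h
        have h2 := congrArg (fun y : (Matrix (Fin (q + 1)) (Fin (q + 1))
          (ZMod (N * c.natAbs)))ˣ => y.val 0 (Fin.last q)) h
        beta_reduce at h2
        rw [hpow, Matrix.add_apply, Matrix.smul_apply, Matrix.single_apply_same, Units.val_one,
          Matrix.one_apply_ne h0, zero_add, smul_eq_mul, mul_one] at h2
        exact h2
      · intro h
        apply Units.ext
        rw [hpow, h, zero_smul, add_zero, Units.val_one]
    rw [h1, ZMod.intCast_zmod_eq_zero_iff_dvd, ← Int.natAbs_dvd_natAbs, Int.natAbs_natCast,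
      Int.natAbs_mul, Int.natAbs_natCast]
    exact Nat.mul_dvd_mul_iff_right (Int.natAbs_pos.mpr hc)
  refine Nat.dvd_antisymm ?_ ?_
  · rw [orderOf_dvd_iff_pow_eq_one, hiff]
  · rw [← hiff]
    exact pow_orderOf_eq_one x

end EO

/-- PIECE EO -/
theorem exists_exact_order {A : Type*} (t : FreeGroup A) (ht : t ≠ 1) (N : ℕ) (hN : 0 < N) :
    ∃ (Q : Type) (_ : Group Q) (_ : Finite Q) (φ : FreeGroup A →* Q), orderOf (φ t) = N := by
  classical
  obtain ⟨l, h1, h2, h3⟩ := EO.exists_syl t.toWord
  rw [FreeGroup.mk_toWord] at h1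
  -- the good lengths
  let G : ℕ → Prop := fun q => 0 < q ∧ ∃ b : ℕ → A, (∀ i, i + 1 < q → b i ≠ b (i + 1)) ∧
    EO.act b t.toWord (fun k => if k = q then (1 : ℤ) else 0) 0 ≠ 0
  have hex : ∃ q, G q := by
    have hl : l ≠ [] := by
      rintro rfl
      exact ht h1
    have hlen : 0 < l.length := List.length_pos_iff.mpr hl
    obtain ⟨p0, -⟩ := List.exists_mem_of_ne_nil l hl
    let b : ℕ → A := fun i => (l.getD i p0).1
    have hbl : ∀ i (h : i < l.length), b i = (l[i]).1 := by
      intro i h
      change (l.getD i p0).1 = _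
      rw [List.getD_eq_getElem _ _ h]
    have hb : ∀ i, i + 1 < l.length → b i ≠ b (i + 1) := by
      intro i hi
      rw [hbl i (by omega), hbl (i + 1) hi]
      exact List.isChain_iff_getElem.mp h3 i hi
    refine ⟨l.length, hlen, b, hb, ?_⟩
    have h4 := (EO.rho_syl (R := ℤ) b hb l 0 (by omega) (fun i h => by rw [zero_add]; exact hbl i h)).1
    rw [← h1] at h4
    have h5 := EO.rho_entry (R := ℤ) b hb t.toWord 0 (Fin.last l.length)
    rw [FreeGroup.mk_toWord] at h5
    have h6 : EO.ext ((EO.rho ℤ b hb t).val *ᵥ Pi.single (Fin.last l.length) 1) 0 =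
        (EO.rho ℤ b hb t).val 0 (Fin.last l.length) := by
      have h7 := EO.ext_val ((EO.rho ℤ b hb t).val *ᵥ Pi.single (Fin.last l.length) 1) 0
      have h8 : ((EO.rho ℤ b hb t).val *ᵥ Pi.single (Fin.last l.length) 1) 0 =
          (EO.rho ℤ b hb t).val 0 (Fin.last l.length) := by
        rw [Matrix.mulVec_single_one]
        rfl
      rw [← h8, ← h7]
      rfl
    rw [h6, h5] at h4
    change EO.act b t.toWord (fun k => if k = l.length then (1 : ℤ) else 0) 0 = _ at h4
    rw [h4]
    refine List.prod_ne_zero ?_
    intro h0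
    obtain ⟨p, hp, hp0⟩ := List.mem_map.mp h0
    exact h2 p hp (by exact_mod_cast hp0)
  obtain ⟨hq, b, hb, hc⟩ := Nat.find_spec hex
  have hmin : ∀ j, j < Nat.find hex → ¬ G j := fun j hj => Nat.find_min hex hj
  set q := Nat.find hex with hqdef
  set c := EO.act b t.toWord (fun k => if k = q then (1 : ℤ) else 0) 0 with hcdef
  have hM : NeZero (N * c.natAbs) := ⟨(Nat.mul_pos hN (Int.natAbs_pos.mpr hc)).ne'⟩
  refine ⟨(Matrix (Fin (q + 1)) (Fin (q + 1)) (ZMod (N * c.natAbs)))ˣ, inferInstance,
    inferInstance, EO.rho _ b hb, ?_⟩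
  refine EO.order_eq hq c hc N _ ?_
  ext i j
  have h4 := EO.rho_entry (R := ZMod (N * c.natAbs)) b hb t.toWord i j
  rw [FreeGroup.mk_toWord] at h4
  rw [h4, Matrix.add_apply, Matrix.smul_apply, smul_eq_mul]
  have hcast : (fun k => if k = (j : ℕ) then (1 : ZMod (N * c.natAbs)) else 0) =
      fun k => (((if k = (j : ℕ) then 1 else 0 : ℤ)) : ZMod (N * c.natAbs)) := by
    funext k
    split_ifs <;> simp
  rcases lt_trichotomy (i : ℕ) (j : ℕ) with hij | hij | hij
  · -- above the diagonal
    rw [Matrix.one_apply_ne (fun h => by rw [h] at hij; omega), zero_add, hcast, ← EO.act_cast]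
    by_cases hcor : i = 0 ∧ j = Fin.last q
    · rw [hcor.1, hcor.2, Matrix.single_apply_same, mul_one]
      rfl
    · rw [Matrix.single_apply_of_ne _ _ _ _ _ (fun h => hcor ⟨h.1.symm, h.2.symm⟩), mul_zero]
      have hlt : (j : ℕ) - i < q := by
        by_contra hge
        apply hcor
        have := j.2
        constructor
        · apply Fin.ext
          rw [Fin.val_zero]
          omega
        · apply Fin.ext
          rw [Fin.val_last]
          omega
      have h5 : EO.act b t.toWord (fun k => (if k = (j : ℕ) then 1 else 0 : ℤ)) i = 0 := by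
        have h6 := EO.act_shift b t.toWord (fun k => (if k = (j : ℕ) then 1 else 0 : ℤ)) i 0
        rw [zero_add] at h6
        rw [h6]
        by_contra hne
        refine hmin _ hlt ⟨by omega, fun k => b (k + i), fun k hk => ?_, ?_⟩
        · have h7 := hb (k + i) (by have := j.2; omega)
          change b (k + i) ≠ b (k + 1 + i)
          rwa [show k + 1 + (i : ℕ) = k + i + 1 by ring]
        · have h8 : (fun k => if k = (j : ℕ) - i then (1 : ℤ) else 0) =
              fun k => if k + (i : ℕ) = j then 1 else 0 := by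
            funext k
            have : k = (j : ℕ) - i ↔ k + (i : ℕ) = j := by omega
            simp only [this]
          rw [h8]
          exact hne
      rw [h5, Int.cast_zero]
  · -- the diagonal
    have hij' : i = j := Fin.ext hij
    subst hij'
    rw [Matrix.one_apply_eq, Matrix.single_apply_of_ne, mul_zero, add_zero,
      EO.act_last _ _ _ i (fun k hk => if_neg (by omega)), if_pos rfl]
    rintro ⟨h5, h6⟩
    rw [← h5] at h6
    have := congrArg Fin.val h6
    simp at this
    omega
  · -- below the diagonal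
    rw [Matrix.one_apply_ne (fun h => by rw [h] at hij; omega), zero_add,
      Matrix.single_apply_of_ne, mul_zero,
      EO.act_supp _ _ _ j (fun k hk => if_neg (by omega)) i hij]
    rintro ⟨h5, h6⟩
    rw [← h5] at hij
    simp at hij

end IM
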